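import Pool.Agent.W831.ECC.Asy

set_option autoImplicit false

namespace Pool.Agent.Results.MP_40718a_co.AsymptoticCovers

open Pool.Agent.H126R2.CDC (MGraph)

/-- Let `G` be a finite bridgeless graph with `N` edges. For every even `l` and every
`k ≥ 3 l / 2 + 140 sqrt (l log (2 N + 2))` there are `k` even subgraphs of `G` (every vertex has
even degree, loops counted twice) such that every edge lies in exactly `l` of them. -/
theorem result (V E : Type) [Fintype V] [DecidableEq V] [Fintype E] [DecidableEq E]
    (G : MGraph V E) (hG : G.Bridgeless) (l k : ℕ) (hl : Even l)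
    (hk : 3 / 2 * (l : ℝ) + 140 * Real.sqrt (l * Real.log (2 * (Fintype.card E + 1))) ≤ k) :
    ∃ C : Fin k → Finset E, (∀ i v, Even (G.deg (C i) v)) ∧
      ∀ e, (Finset.univ.filter (fun i => e ∈ C i)).card = l := by
  obtain ⟨F, hF0, hF1, hF2⟩ := Pool.Agent.W831.ECC.asymp G hG l hl k hk
  obtain ⟨L, rfl⟩ : ∃ L : List (Finset E), (L : Multiset (Finset E)) = F :=
    ⟨F.toList, F.coe_toList⟩
  rw [Multiset.coe_card] at hF0
  subst hF0
  refine ⟨L.get, ?_, ?_⟩
  · intro i v
    exact hF1 _ (by rw [Multiset.mem_coe]; exact List.get_mem L i) v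
  · intro e
    have h2 : (L : Multiset (Finset E)).countP (fun D => e ∈ D) = l := hF2 e
    have h1 : (L : Multiset (Finset E)) = (Finset.univ : Finset (Fin L.length)).val.map L.get := by
      rw [Fin.univ_val_map, List.ofFn_get]
    rw [h1, Multiset.countP_map] at h2
    rw [← h2]
    rfl

end Pool.Agent.Results.MP_40718a_co.AsymptoticCovers
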