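import Pool.Agent.W420.BF.Fin
import Pool.Agent.W420.BF.Join
import Pool.Agent.W461.BF.Perm
import Pool.Agent.W119.BF.Leaf
import Pool.Agent.W887.BF.Three
import Pool.Agent.W351.BF.Red

/-!
Quadruple covers by six even subgraphs for all bridgeless graphs of carving width at most five.

A carving of a graph is a binary tree whose leaves are the vertices; its width is the largest number
of edges that leave the set of leaves of a subtree. Proof. Assign to each edge the 4-subset of the
indices of the even subgraphs containing it. Cuts of size two are reduced by merging one side into
an end of a cut edge, which does not increase the width. In a graph without cuts of size less than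
three each subtree gives a piece with three, four or five outgoing edges, and up to permutations of
the six indices and of the outgoing edges the set of colourings of the outgoing edges that extend to
the piece contains one of seven explicit sets (1, 2, 4 sets for 3, 4, 5 edges): this family is
closed under gluing two pieces (15135 gluings of two explicit sets, checked by the kernel with
explicit witnesses), and two complementary pieces always have a common colouring.
-/

set_option autoImplicit false

open Finset

namespace Pool.Agent.Results.MP_40718a_co.CarvingWidthFive

open Pool.Agent.W420.BF

open Classical in
/-- Let `G` be a finite graph with loops and parallel edges allowed, given by the two ends `s e` and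
`t e` of each edge `e`. Assume that no set of vertices is left by exactly one edge (no bridges) and
that some binary tree `T` whose leaves are labelled bijectively by the vertices has width at most
five: for each subtree at most five edges leave the set of its leaves. Then there are six even
subgraphs such that each edge lies in exactly four of them. -/
theorem result (V E : Type) [Fintype V] [Fintype E] (s t : E → V)
    (hbridge : ∀ Z : Set V, (cut s t Z).card ≠ 1)
    (hwidth : ∃ T : Tr V, T.set = Set.univ ∧ T.Nodup ∧ T.Width s t 5) :
    ∃ C : Fin 6 → Finset E,
      (∀ i v, Even (((C i).filter (fun e => s e = v)).card +
        ((C i).filter (fun e => t e = v)).card)) ∧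
      ∀ e, (univ.filter (fun i => e ∈ C i)).card = 4 := by
  obtain ⟨T, hT, hN, hW⟩ := hwidth
  have hthree : StmThree := Pool.Agent.W887.BF.three Pool.Agent.W119.BF.leaf
    (join Pool.Agent.W461.BF.act)
  obtain ⟨f, hf⟩ := Pool.Agent.W351.BF.red Pool.Agent.W461.BF.act Pool.Agent.W461.BF.trans hthree
    V E s t T hN hW (fun e => by rw [hT]; exact ⟨Set.mem_univ _, Set.mem_univ _⟩) hbridge
  rw [hT] at hf
  exact fin_cover s t f hf

end Pool.Agent.Results.MP_40718a_co.CarvingWidthFive
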